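import Pool.Agent.Lib.MP_fa837f_gt.TS.Iface

/-!
Module TS1 (helper45): the one variable two-sum theorem, by approximation.
-/

set_option autoImplicit false

open MeasureTheory Set Filter Topology

namespace Pool.Agent.Lib.MP_fa837f_gt.TS.H45

open Pool.Agent.Lib.MP_fa837f_gt.TS

theorem slo_of_adm {φ : ℝ → ℝ → ℝ} (h : Adm φ) (θ : ℝ) : Slo (φ θ) where
  conc := by
    refine ⟨convex_univ, ?_⟩
    intro x _ y _ a b ha hb hab
    have h1 := h.conc.2 (mem_univ (θ, x)) (mem_univ (θ, y)) ha hb hab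
    simp only [Prod.smul_mk, Prod.mk_add_mk, smul_eq_mul] at h1
    have h2 : a * θ + b * θ = θ := by rw [← add_mul, hab, one_mul]
    rw [h2] at h1
    simpa only [smul_eq_mul] using h1
  mono := h.mono θ
  lip := h.lip θ

theorem jet_concave (J : Jet) (θ : ℝ) : ConcaveOn ℝ Set.univ (J.f θ) := by
  have hd : deriv (J.f θ) = J.p θ := funext fun ρ => (J.hfp θ ρ).deriv
  refine Antitone.concaveOn_univ_of_deriv (fun ρ => (J.hfp θ ρ).differentiableAt) ?_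
  rw [hd]
  have hp : Differentiable ℝ (J.p θ) := fun ρ => (J.hpP θ ρ).differentiableAt
  refine antitone_of_deriv_nonpos hp fun ρ => ?_
  rw [(J.hpP θ ρ).deriv]
  linarith [J.hP θ ρ]

theorem coer_near {χ η : ℝ → ℝ} {c K : ℝ} (hc : 0 < c) (h : Coer χ)
    (hη : ∀ ρ, |η ρ - c * χ ρ| ≤ K) : Coer η := by
  have hle : ∀ ρ, η ρ ≤ c * χ ρ + K := fun ρ => by linarith [(abs_le.1 (hη ρ)).2]
  constructor
  · refine tendsto_atBot_mono hle ?_
    exact tendsto_atBot_add_const_right _ _ (h.1.const_mul_atBot hc)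
  · refine tendsto_atBot_mono hle ?_
    exact tendsto_atBot_add_const_right _ _ (h.2.const_mul_atBot hc)

theorem ts1 (hreg : RegStatement) (hsm : SmoothStatement) (hlim : LimStatement)
    (hpos : PosStatement) : Ts1Statement := by
  intro φ ψ hφ hψ hco
  set e : ℕ → ℝ := fun N => 1 / ((N : ℝ) + 3) with he
  have e0 : ∀ N, 0 < e N := fun N => by simp only [he]; positivity
  have e1 : ∀ N, e N < 1 / 2 := fun N => by
    simp only [he]
    have h3 : (0 : ℝ) ≤ N := Nat.cast_nonneg N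
    rw [div_lt_div_iff₀ (by positivity) (by norm_num)]
    linarith
  have e1' : ∀ N, e N < 1 := fun N => by linarith [e1 N]
  have et : Tendsto e atTop (𝓝 0) := by
    have h1 : Tendsto (fun N : ℕ => (N : ℝ) + 3) atTop atTop :=
      tendsto_atTop_add_const_right _ _ tendsto_natCast_atTop_atTop
    have h2 : Tendsto (fun N : ℕ => ((N : ℝ) + 3)⁻¹) atTop (𝓝 0) := h1.inv_tendsto_atTop
    simpa only [he, one_div] using h2
  choose J₁ hJ₁ hp₁ using fun N => hreg φ hφ (e N) (e0 N) (e1' N) (e N) (e0 N)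
  choose J₂ hJ₂ hp₂ using fun N => hreg ψ hψ (e N) (e0 N) (e1' N) (e N) (e0 N)
  have hcoN : ∀ N θ, Coer fun ρ => (J₁ N).f θ ρ + (J₂ N).f θ ρ - ρ := by
    intro N θ
    refine coer_near (c := 1 - e N) (K := 2 * e N) (by linarith [e1' N]) (hco θ) ?_
    intro ρ
    have h1 := abs_le.1 (hJ₁ N θ ρ)
    have h2 := abs_le.1 (hJ₂ N θ ρ)
    rw [abs_le]
    constructor
    · linarith [h1.1, h2.1]
    · linarith [h1.2, h2.2]
  have hS := fun N => hsm (J₁ N) (J₂ N) (e N / 2) (by linarith [e0 N])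
    (fun θ ρ => ⟨(hp₁ N θ ρ).1, by linarith [(hp₁ N θ ρ).2, e0 N]⟩)
    (fun θ ρ => ⟨(hp₂ N θ ρ).1, by linarith [(hp₂ N θ ρ).2, e0 N]⟩) (hcoN N)
  have hL : ∀ θ, Tendsto (fun N => ∫ ρ, F0 (J₁ N) (J₂ N) θ ρ) atTop
      (𝓝 (∫ ρ, Real.exp (φ θ ρ + ψ θ ρ - ρ) * (deriv (φ θ) ρ * deriv (ψ θ) ρ))) := by
    intro θ
    exact hlim (φ θ) (ψ θ) (slo_of_adm hφ θ) (slo_of_adm hψ θ) (hco θ) e
      (fun N => (J₁ N).f θ) (fun N => (J₁ N).p θ) (fun N => (J₂ N).f θ) (fun N => (J₂ N).p θ)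
      (fun N => ⟨e0 N, e1 N⟩) et (fun N => jet_concave _ θ) (fun N => jet_concave _ θ)
      (fun N ρ => (J₁ N).hfp θ ρ) (fun N ρ => (J₂ N).hfp θ ρ)
      (fun N ρ => ⟨by linarith [(hp₁ N θ ρ).1, e0 N], by linarith [(hp₁ N θ ρ).2, e0 N]⟩)
      (fun N ρ => ⟨by linarith [(hp₂ N θ ρ).1, e0 N], by linarith [(hp₂ N θ ρ).2, e0 N]⟩)
      (fun N ρ => hJ₁ N θ ρ) (fun N ρ => hJ₂ N θ ρ)
  have hlog : ∀ θ, Tendsto (fun N => Real.log (∫ ρ, F0 (J₁ N) (J₂ N) θ ρ)) atTop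
      (𝓝 (Real.log (∫ ρ, Real.exp (φ θ ρ + ψ θ ρ - ρ) *
        (deriv (φ θ) ρ * deriv (ψ θ) ρ)))) := by
    intro θ
    exact (hL θ).log (hpos (φ θ) (ψ θ) (slo_of_adm hφ θ) (slo_of_adm hψ θ) (hco θ)).ne'
  refine ⟨convex_univ, ?_⟩
  intro x _ y _ a b ha hb hab
  refine le_of_tendsto_of_tendsto' (((hlog x).const_smul a).add ((hlog y).const_smul b))
    (hlog (a • x + b • y)) fun N => ?_
  exact (hS N).2.2 (mem_univ x) (mem_univ y) ha hb hab

end Pool.Agent.Lib.MP_fa837f_gt.TS.H45
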